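import Pool.Agent.N802.WD.Stm2
import Pool.Agent.Y833.SW.Di
import Pool.Agent.TH803.CL.Zer

/-! # Isolated simple zeros near a point: the local trace inequality for the zeros of zeta -/

open Complex Filter Topology Set MeasureTheory
open scoped BigOperators ComplexConjugate

namespace Run7.h311.WI

open H370 TH803UC TH803CL Pool.Agent.N802.U Pool.Agent.N802.WD

/-- the window at `z` -/
noncomputable def vt (G : ℂ → ℂ) (t : ℝ) (z : ℂ) : ℂ := G (z - t) ^ 2 * cexp (-(z - t) ^ 2 / 2)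

open Classical in
/-- the number of isolated simple zeros on the critical line within `h` of `t` -/
noncomputable def ni (F : ℂ → ℂ) (U1 U2 d h t : ℝ) : ℝ :=
  (((isoZ F U1 U2 d).filter (fun s => |s.im - t| ≤ h)).card : ℝ)

open Classical in
/-- the cost of a zero -/
noncomputable def ci (G : ℂ → ℂ) (th : ℝ → ℝ) (L d η1 t : ℝ) (s : ℂ) : ℝ :=
  (if |s.im - t| ≤ th |(zz s).im| + 2 * d then 2 * ‖1 - vt G t (zz s)‖ + η1 else 0) +
  (if |s.im - t| ≤ th |(zz s).im| - 2 * d then 0 else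
    2 * ‖vt G t (zz s)‖ * Real.exp (|(zz s).im| * L))

lemma vt_conj {G : ℂ → ℂ} (hG : ∀ z : ℂ, G (conj z) = conj (G z)) (t : ℝ) (z : ℂ) :
    vt G t ((starRingEnd ℂ) z) = (starRingEnd ℂ) (vt G t z) := by
  unfold vt
  have e1 : (starRingEnd ℂ) (z - t) = (starRingEnd ℂ) z - t := by
    rw [map_sub, Complex.conj_ofReal]
  have e2 : (starRingEnd ℂ) (-(z - t) ^ 2 / 2) = -((starRingEnd ℂ) z - t) ^ 2 / 2 := by
    rw [map_div₀, map_neg, map_pow, e1, Complex.conj_ofNat]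
  rw [map_mul, map_pow, ← Complex.exp_conj, ← hG, e1, e2]

lemma vt_real {G : ℂ → ℂ} (hG : ∀ z : ℂ, G (conj z) = conj (G z)) (t : ℝ) (z : ℂ)
    (hz : z.im = 0) : 0 ≤ (vt G t z).re := by
  have e1 : z - t = ((z.re - t : ℝ) : ℂ) := by
    apply Complex.ext
    · simp
    · simp [hz]
  have h1 : G ((z.re - t : ℝ) : ℂ) = (((G ((z.re - t : ℝ) : ℂ)).re : ℝ) : ℂ) := by
    have h2 := hG ((z.re - t : ℝ) : ℂ)
    rw [Complex.conj_ofReal] at h2
    exact (Complex.conj_eq_iff_re.1 h2.symm).symm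
  unfold vt
  rw [e1, h1]
  have e3 : (((G ((z.re - t : ℝ) : ℂ)).re : ℝ) : ℂ) ^ 2 *
      cexp (-(((z.re - t : ℝ) : ℂ)) ^ 2 / 2) =
      (((G ((z.re - t : ℝ) : ℂ)).re ^ 2 * Real.exp (-(z.re - t) ^ 2 / 2) : ℝ) : ℂ) := by
    push_cast
    ring
  rw [e3, Complex.ofReal_re]
  positivity

theorem icount {F : ℂ → ℂ} (hF : GoodL F) {U1 U2 : ℝ} (hU : 1 ≤ U1) {G : ℂ → ℂ}
    (hG : ∀ z : ℂ, G (conj z) = conj (G z)) {th : ℝ → ℝ} {Λ L d η1 : ℝ} (t : ℝ) (hΛ : 0 ≤ Λ)
    (hΛL : Λ ≤ L) (hL : 10 ≤ L) (hd : 0 < d) (hdL : d * L ≤ 1 / 10) (hη0 : 0 ≤ η1) (hη1 : η1 ≤ 1)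
    (hkap : ∀ u : ℂ, ‖u‖ ≤ 6 * d → ‖kap (Λ * u) - 1‖ ≤ η1)
    (hth : ∀ y, 0 ≤ y → y < d → th y = th 0) :
    2 * (SS F U1 U2 (fun z => G z ^ 2) 0 t).re -
      2 * (∫ α in (0 : ℝ)..1, Rf α * ‖SS F U1 U2 (fun z => G z ^ 2) (Λ * α) t‖ ^ 2) ≤
    ni F U1 U2 d (th 0) t + 10 * ∑ s ∈ Zf F U1 U2, (mult F s : ℝ) * ci G th L d η1 t s := by
  classical
  set Z : Finset ℂ := (Zf F U1 U2).image zz with hZ
  set m : ℂ → ℕ := fun z => mult F (1 / 2 + I * z) with hm
  have hZc := Zconj hF (B := U2) hU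
  have hmp := Zpos hF (B := U2) hU
  have hmc := Zmc hF (B := U2) hU
  rw [← hZ] at hZc hmp hmc
  have hmain := Pool.Agent.Y833.SW.t_DI Z m (vt G t) th Λ L d η1 t hZc hmp hmc (vt_conj hG t)
    (vt_real hG t) hΛ hΛL hL hd hdL hη0 hη1 hkap hth
  have hS : (SS F U1 U2 (fun z => G z ^ 2) 0 t).re =
      ∑ z ∈ Z.filter (fun z => 0 ≤ z.im), cw m z * (vt G t z).re := by
    rw [← split_real Z hZc m hmc (fun z => (vt G t z).re)
      (fun z => by rw [vt_conj hG, Complex.conj_re]), hZ,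
      Finset.sum_image (fun s _ s' _ h => zz_inj h)]
    unfold SS
    rw [Complex.re_sum]
    refine Finset.sum_congr rfl fun s _ => ?_
    simp only [hm]
    rw [zz_back]
    simp only [Complex.ofReal_zero, mul_zero, zero_mul, Complex.exp_zero, one_mul]
    rw [← Complex.ofReal_natCast, Complex.re_ofReal_mul]
    rfl
  have hQ : (∑ z ∈ Z, ∑ w ∈ Z, (m z : ℂ) * (m w : ℂ) *
      (vt G t z * vt G t w * kap (Λ * (z - w)) ^ 2)).re =
      2 * ∫ α in (0 : ℝ)..1, Rf α * ‖SS F U1 U2 (fun z => G z ^ 2) (Λ * α) t‖ ^ 2 := by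
    have h1 := pair_eq hF (U2 := U2) hU (W := fun z => G z ^ 2)
      (fun z => by rw [hG, map_pow]) Λ t
    have h2 : ∑ z ∈ Z, ∑ w ∈ Z, (m z : ℂ) * (m w : ℂ) *
        (vt G t z * vt G t w * kap (Λ * (z - w)) ^ 2) =
        ((2 * ∫ α in (0 : ℝ)..1, Rf α * ‖SS F U1 U2 (fun z => G z ^ 2) (Λ * α) t‖ ^ 2 : ℝ) : ℂ) := by
      rw [← h1, hZ, Finset.sum_image (fun s _ s' _ h => zz_inj h)]
      refine Finset.sum_congr rfl fun s _ => ?_
      rw [Finset.sum_image (fun s _ s' _ h => zz_inj h)]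
      refine Finset.sum_congr rfl fun s' _ => ?_
      simp only [hm]
      rw [zz_back, zz_back]
      rfl
    rw [h2, Complex.ofReal_re]
  have hC : ∑ z ∈ Z.filter (fun z => 0 ≤ z.im), cw m z *
      ((if |z.re - t| ≤ th |z.im| + 2 * d then 2 * ‖1 - vt G t z‖ + η1 else 0) +
        (if |z.re - t| ≤ th |z.im| - 2 * d then 0 else
          2 * ‖vt G t z‖ * Real.exp (|z.im| * L))) =
      ∑ s ∈ Zf F U1 U2, (mult F s : ℝ) * ci G th L d η1 t s := by
    rw [← split_real Z hZc m hmc (fun z =>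
      ((if |z.re - t| ≤ th |z.im| + 2 * d then 2 * ‖1 - vt G t z‖ + η1 else 0) +
        (if |z.re - t| ≤ th |z.im| - 2 * d then 0 else
          2 * ‖vt G t z‖ * Real.exp (|z.im| * L)))) ?_, hZ,
      Finset.sum_image (fun s _ s' _ h => zz_inj h)]
    · refine Finset.sum_congr rfl fun s _ => ?_
      simp only [hm]
      rw [zz_back, zz_re]
      rfl
    · intro z
      have e1 : ‖1 - vt G t ((starRingEnd ℂ) z)‖ = ‖1 - vt G t z‖ := by
        rw [vt_conj hG, ← Complex.norm_conj (1 - vt G t z), map_sub, map_one]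
      have e2 : ‖vt G t ((starRingEnd ℂ) z)‖ = ‖vt G t z‖ := by
        rw [vt_conj hG, Complex.norm_conj]
      simp only [e1, e2, Complex.conj_re, Complex.conj_im, abs_neg]
  have hI : (((isoP Z m d).filter (fun z => |z.re - t| ≤ th 0)).card : ℝ) ≤
      ni F U1 U2 d (th 0) t := by
    unfold ni
    have h1 : (isoP Z m d).filter (fun z => |z.re - t| ≤ th 0) ⊆
        ((isoZ F U1 U2 d).filter (fun s => |s.im - t| ≤ th 0)).image zz := by
      intro z hz
      rw [Finset.mem_filter] at hz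
      obtain ⟨hz, hzt⟩ := hz
      unfold isoP at hz
      rw [Finset.mem_filter, hZ, Finset.mem_image] at hz
      obtain ⟨⟨s, hs, rfl⟩, h1, h2, h3⟩ := hz
      have h2' : mult F (1 / 2 + I * zz s) = 1 := h2
      rw [zz_back] at h2'
      rw [zz_im] at h1
      rw [zz_re] at hzt
      refine Finset.mem_image_of_mem _ ?_
      rw [Finset.mem_filter]
      refine ⟨?_, hzt⟩
      unfold isoZ
      rw [Finset.mem_filter]
      refine ⟨hs, by linarith, h2', fun s' hs' hne => ?_⟩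
      have := h3 (zz s') (Finset.mem_image_of_mem _ hs') (fun h => hne (zz_inj h))
      rwa [zz_dist] at this
    have h2 := (Finset.card_le_card h1).trans Finset.card_image_le
    exact_mod_cast h2
  rw [hQ, hC, ← hS] at hmain
  linarith

end Run7.h311.WI
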