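import Pool.Agent.N802.WD.Pt6
import Pool.Agent.Run7.h311.WI.Pair

/-! # The costs of the zeros in the local trace inequality -/

open Complex Filter Topology Set MeasureTheory
open scoped BigOperators ComplexConjugate

namespace Run7.h311.WI

open H370 hiding pt
open TC Pool.Agent.N802.U Pool.Agent.N802.WD

/-- the threshold of the window at the height `y` -/
noncomputable def thf (L h A X0 θ d y : ℝ) : ℝ :=
  if y * L < A then h - 3 * X0 else h + Real.exp (θ / 8 * (y * L)) * X0 + 2 * d

/-- additional numerical conditions -/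
structure NumI (η ε' A C θ : ℝ) (n : ℕ) (L d η1 : ℝ) : Prop where
  η4 : η ≤ θ / 4
  n8 : 1 ≤ (4 * (n : ℝ) - 4) * (θ / 8)
  A0 : 1 ≤ A
  fa : (27 + 8 * C ^ 2) * Real.exp (-(θ / 2 * A)) ≤ ε'
  d0 : 0 < d
  dL : d * L ≤ 1 / 10
  e0 : 0 ≤ η1
  e1 : η1 ≤ 1

section

variable {F : ℂ → ℂ} (hF : GoodL F) {U1 U2 : ℝ} (hU : 1 ≤ U1) {η ε' L h A X1 κ C θ : ℝ} {n : ℕ}
  {G : ℂ → ℂ} {w : ℝ → ℂ} {Gp : ℂ → ℂ} {gp : ℝ → ℂ}
  (hT : TwD η ε' L h A (X1 / L) κ C n G w Gp gp) (hN : NumD η ε' L h A X1 κ C θ n)
  (hin : ∀ z : ℂ, |z.im| * L ≤ A → |z.re| ≤ h - 2 * (X1 / L) →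
    ‖1 - G z ^ 2 * cexp (-z ^ 2 / 2)‖ ≤ ε')
  {d η1 : ℝ} (hI : NumI η ε' A C θ n L d η1)

include hN hI in
lemma d_le : 4 * d ≤ X1 / L := by
  have hL : 0 < L := by linarith [hN.L1]
  rw [le_div_iff₀ hL]
  have h1 := hI.dL
  have h2 := hN.X
  linarith

include hN in
lemma dk_25 (x : ℝ) : dk (X1 / L) h x ≤ 25 * dk (X1 / L) (h - 4 * (X1 / L)) x := by
  have hX := hN.X0
  unfold dk
  have h1 : 0 ≤ max 0 (|x| - h) / (X1 / L) := div_nonneg (le_max_left _ _) hX.le
  have h2 : 0 ≤ max 0 (|x| - (h - 4 * (X1 / L))) / (X1 / L) :=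
    div_nonneg (le_max_left _ _) hX.le
  have h3 : max 0 (|x| - (h - 4 * (X1 / L))) / (X1 / L) ≤ 4 + max 0 (|x| - h) / (X1 / L) := by
    rw [div_le_iff₀ hX, add_mul, div_mul_cancel₀ _ hX.ne']
    apply max_le
    · have := le_max_left 0 (|x| - h)
      positivity
    · have := le_max_right 0 (|x| - h)
      linarith
  rw [← div_eq_mul_inv, le_div_iff₀ (by positivity), inv_mul_le_iff₀ (by positivity)]
  have h4 : 1 + max 0 (|x| - (h - 4 * (X1 / L))) / (X1 / L) ≤
      5 * (1 + max 0 (|x| - h) / (X1 / L)) := by linarith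
  have h5 := pow_le_pow_left₀ (by positivity) h4 2
  linarith

include hF hU hT hN hin hI in
/-- the cost of a zero -/
lemma ci_le (t : ℝ) {s : ℂ} (hs : s ∈ Zf F U1 U2) :
    ci G (thf L h A (X1 / L) θ d) L d η1 t s ≤
      (3 * ε' + η1) * (Real.exp (θ * (|(zz s).im| * L)) * dk (X1 / L) h (s.im - t)) +
      (if h - 4 * (X1 / L) < |s.im - t| then 100 * C ^ 2 * Real.exp A *
        (Real.exp (θ * (|(zz s).im| * L)) * dk (X1 / L) (h - 4 * (X1 / L)) (s.im - t)) else 0) := by
  have hL : 0 < L := by linarith [hN.L1]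
  have hε := hN.ε0
  have hη0 := hN.η0
  have hθ0 := hN.θ0
  have hC := hN.C1
  have hX := hN.X0
  have hd0 := hI.d0
  have hd4 := d_le hN hI
  have hη1 := hI.e0
  have hη4 := hI.η4
  have hnG := nG' hF hU hT hN hs t
  have hnG0 := nG hF hU hT hN hs t
  have hdk := dk_pos hN (s.im - t)
  have hdk2 : 0 < dk (X1 / L) (h - 4 * (X1 / L)) (s.im - t) := by
    have := dk_25 hN (s.im - t)
    linarith
  have hv := vv_one hX h (s.im - t)
  set x := s.im - t with hx
  set k := |(zz s).im| * L with hk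
  have hk0 : 0 ≤ k := by positivity
  set v := vt G t (zz s) with hvd
  have hvn : ‖v‖ = ‖G (zz s - t) ^ 2 * cexp (-(zz s - t) ^ 2 / 2)‖ := rfl
  rw [← hvn] at hnG hnG0
  have hek : 1 ≤ Real.exp (θ * k) := Real.one_le_exp (by positivity)
  have heη : Real.exp (η * k) ≤ Real.exp (θ * k) := Real.exp_le_exp.2 (by
    apply mul_le_mul_of_nonneg_right _ hk0
    linarith)
  unfold ci
  rw [← hvd, ← hk, ← hx]
  by_cases hkA : k < A
  · have hth : thf L h A (X1 / L) θ d |(zz s).im| = h - 3 * (X1 / L) := by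
      unfold thf
      rw [if_pos (by rw [← hk]; exact hkA)]
    rw [hth]
    have t1 : (if |x| ≤ h - 3 * (X1 / L) + 2 * d then 2 * ‖1 - v‖ + η1 else 0) ≤
        (3 * ε' + η1) * (Real.exp (θ * k) * dk (X1 / L) h x) := by
      split_ifs with h1
      · have h2 := hin (zz s - t) (by rw [sub_im', ← hk]; exact hkA.le) (by
          rw [sub_re', ← hx]; linarith)
        have h3 : ‖1 - v‖ ≤ ε' := h2
        have h4 : dk (X1 / L) h x = 1 := dk_one hN (by linarith)
        rw [h4, mul_one]
        calc 2 * ‖1 - v‖ + η1 ≤ (3 * ε' + η1) * 1 := by linarith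
          _ ≤ _ := mul_le_mul_of_nonneg_left hek (by positivity)
      · positivity
    have t2 : (if |x| ≤ h - 3 * (X1 / L) - 2 * d then 0 else 2 * ‖v‖ * Real.exp k) ≤
        (if h - 4 * (X1 / L) < |x| then 100 * C ^ 2 * Real.exp A *
          (Real.exp (θ * k) * dk (X1 / L) (h - 4 * (X1 / L)) x) else 0) := by
      by_cases h1 : |x| ≤ h - 3 * (X1 / L) - 2 * d
      · rw [if_pos h1]
        split_ifs <;> positivity
      · rw [if_neg h1, if_pos (by linarith)]
        have h2 := dk_25 hN x
        have h3 : Real.exp k ≤ Real.exp A := Real.exp_le_exp.2 hkA.le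
        calc 2 * ‖v‖ * Real.exp k ≤ 2 * (2 * C ^ 2 * (Real.exp (η * k) *
              dk (X1 / L) h x)) * Real.exp A := by gcongr
          _ ≤ 2 * (2 * C ^ 2 * (Real.exp (θ * k) *
              (25 * dk (X1 / L) (h - 4 * (X1 / L)) x))) * Real.exp A := by gcongr
          _ = _ := by ring
    linarith
  · have hAk : A ≤ k := not_lt.1 hkA
    have hth : thf L h A (X1 / L) θ d |(zz s).im| =
        h + Real.exp (θ / 8 * k) * (X1 / L) + 2 * d := by
      unfold thf
      rw [if_neg (by rw [← hk]; exact hkA), ← hk]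
    rw [hth]
    have hE : 1 ≤ Real.exp (θ / 8 * k) := Real.one_le_exp (by positivity)
    have hη' : Real.exp (η * k) ≤ Real.exp (θ / 4 * k) := Real.exp_le_exp.2
      (mul_le_mul_of_nonneg_right hη4 hk0)
    have t1 : (if |x| ≤ h + Real.exp (θ / 8 * k) * (X1 / L) + 2 * d + 2 * d then
        2 * ‖1 - v‖ + η1 else 0) ≤
        (27 + 4 * C ^ 2) * (Real.exp (θ / 4 * k) * dk (X1 / L) h x) := by
      split_ifs with h1
      · have h2 : ‖1 - v‖ ≤ 1 + ‖v‖ := by
          refine (norm_sub_le _ _).trans ?_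
          rw [norm_one]
        have h3 : 3 ≤ 27 * (Real.exp (θ / 4 * k) * dk (X1 / L) h x) := by
          have h4 : vv (X1 / L) h x ≤ 3 * Real.exp (θ / 8 * k) := by
            unfold vv
            have h5 : max 0 (|x| - h) / (X1 / L) ≤ 2 * Real.exp (θ / 8 * k) := by
              rw [div_le_iff₀ hX]
              apply max_le
              · positivity
              · have h6 : X1 / L ≤ Real.exp (θ / 8 * k) * (X1 / L) :=
                  le_mul_of_one_le_left hX.le hE
                linarith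
            linarith
          have h5 : (vv (X1 / L) h x) ^ 2 ≤ 9 * Real.exp (θ / 4 * k) := by
            have h6 := pow_le_pow_left₀ (by linarith) h4 2
            have h7 : (3 * Real.exp (θ / 8 * k)) ^ 2 = 9 * Real.exp (θ / 4 * k) := by
              rw [mul_pow, ← Real.exp_nat_mul]
              congr 1
              · norm_num
              · congr 1
                push_cast
                ring
            rwa [h7] at h6
          have h6 : dk (X1 / L) h x = ((vv (X1 / L) h x) ^ 2)⁻¹ := rfl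
          have hv0 : 0 < (vv (X1 / L) h x) ^ 2 := by
            have : 0 < vv (X1 / L) h x := by linarith
            positivity
          rw [h6, ← div_eq_mul_inv, mul_div_assoc', le_div_iff₀ hv0]
          linarith
        have h4 : 2 * ‖v‖ ≤ 4 * C ^ 2 * (Real.exp (θ / 4 * k) * dk (X1 / L) h x) := by
          calc 2 * ‖v‖ ≤ 2 * (2 * C ^ 2 * (Real.exp (η * k) * dk (X1 / L) h x)) := by linarith
            _ ≤ 2 * (2 * C ^ 2 * (Real.exp (θ / 4 * k) * dk (X1 / L) h x)) := by gcongr
            _ = _ := by ring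
        have h5 := hI.e1
        linarith
      · positivity
    have t2 : (if |x| ≤ h + Real.exp (θ / 8 * k) * (X1 / L) + 2 * d - 2 * d then 0 else
        2 * ‖v‖ * Real.exp k) ≤
        4 * C ^ 2 * (Real.exp (θ / 4 * k) * dk (X1 / L) h x) := by
      split_ifs with h1
      · positivity
      · push Not at h1
        have h2 : Real.exp (θ / 8 * k) ≤ vv (X1 / L) h x := by
          unfold vv
          have h3 : Real.exp (θ / 8 * k) ≤ max 0 (|x| - h) / (X1 / L) := by
            rw [le_div_iff₀ hX]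
            exact le_trans (by linarith) (le_max_right 0 (|x| - h))
          linarith
        have h3 : (((vv (X1 / L) h x) ^ (2 * n - 1))⁻¹) ^ 2 ≤
            dk (X1 / L) h x * Real.exp (-k) := by
          have h4 : dk (X1 / L) h x = ((vv (X1 / L) h x) ^ 2)⁻¹ := rfl
          have h5 : (((vv (X1 / L) h x) ^ (2 * n - 1))⁻¹) ^ 2 =
              ((vv (X1 / L) h x) ^ 2)⁻¹ * ((vv (X1 / L) h x) ^ (4 * n - 4))⁻¹ := by
            rw [inv_pow, ← pow_mul, ← mul_inv, ← pow_add]
            congr 2
            have := hN.n1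
            omega
          rw [h4, h5]
          apply mul_le_mul_of_nonneg_left _ (by positivity)
          rw [Real.exp_neg]
          apply inv_anti₀ (Real.exp_pos _)
          have h6 : Real.exp k ≤ Real.exp (θ / 8 * k) ^ (4 * n - 4) := by
            rw [← Real.exp_nat_mul]
            apply Real.exp_le_exp.2
            have h7 : ((4 * n - 4 : ℕ) : ℝ) = 4 * (n : ℝ) - 4 := by
              have := hN.n1
              rw [Nat.cast_sub (by omega)]
              push_cast
              ring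
            rw [h7]
            have h8 := hI.n8
            calc k = 1 * k := (one_mul _).symm
              _ ≤ ((4 * (n : ℝ) - 4) * (θ / 8)) * k := mul_le_mul_of_nonneg_right h8 hk0
              _ = _ := by ring
          exact h6.trans (pow_le_pow_left₀ (Real.exp_pos _).le h2 _)
        have h4 : Real.exp (-k) * Real.exp k = 1 := by
          rw [← Real.exp_add, neg_add_cancel, Real.exp_zero]
        calc 2 * ‖v‖ * Real.exp k ≤ 2 * (2 * C ^ 2 * Real.exp (η * k) *
              (((vv (X1 / L) h x) ^ (2 * n - 1))⁻¹) ^ 2) * Real.exp k := by gcongr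
          _ ≤ 2 * (2 * C ^ 2 * Real.exp (η * k) *
              (dk (X1 / L) h x * Real.exp (-k))) * Real.exp k := by gcongr
          _ = 4 * C ^ 2 * (Real.exp (η * k) * dk (X1 / L) h x) *
              (Real.exp (-k) * Real.exp k) := by ring
          _ = 4 * C ^ 2 * (Real.exp (η * k) * dk (X1 / L) h x) := by rw [h4, mul_one]
          _ ≤ _ := by gcongr
    have t3 : (27 + 8 * C ^ 2) * (Real.exp (θ / 4 * k) * dk (X1 / L) h x) ≤
        (3 * ε' + η1) * (Real.exp (θ * k) * dk (X1 / L) h x) := by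
      have h1 : Real.exp (θ / 4 * k) ≤ Real.exp (-(θ / 2 * A)) * Real.exp (θ * k) := by
        rw [← Real.exp_add]
        apply Real.exp_le_exp.2
        have h2 : θ / 2 * A ≤ θ / 2 * k := mul_le_mul_of_nonneg_left hAk (by positivity)
        have h3 : 0 ≤ θ / 4 * k := by positivity
        linarith
      have h2 := hI.fa
      calc (27 + 8 * C ^ 2) * (Real.exp (θ / 4 * k) * dk (X1 / L) h x) ≤
          (27 + 8 * C ^ 2) * ((Real.exp (-(θ / 2 * A)) * Real.exp (θ * k)) *
            dk (X1 / L) h x) := by gcongr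
        _ = ((27 + 8 * C ^ 2) * Real.exp (-(θ / 2 * A))) *
            (Real.exp (θ * k) * dk (X1 / L) h x) := by ring
        _ ≤ (3 * ε' + η1) * (Real.exp (θ * k) * dk (X1 / L) h x) := by
            apply mul_le_mul_of_nonneg_right _ (by positivity)
            linarith
    have t4 : (0 : ℝ) ≤ (if h - 4 * (X1 / L) < |x| then 100 * C ^ 2 * Real.exp A *
          (Real.exp (θ * k) * dk (X1 / L) (h - 4 * (X1 / L)) x) else 0) := by
      split_ifs <;> positivity
    have t5 : (27 + 4 * C ^ 2) * (Real.exp (θ / 4 * k) * dk (X1 / L) h x) +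
        4 * C ^ 2 * (Real.exp (θ / 4 * k) * dk (X1 / L) h x) =
        (27 + 8 * C ^ 2) * (Real.exp (θ / 4 * k) * dk (X1 / L) h x) := by ring
    linarith

include hF hU hT hN hin hI in
/-- the sum of the costs -/
theorem ci_sum (t : ℝ) :
    ∑ s ∈ Zf F U1 U2, (mult F s : ℝ) * ci G (thf L h A (X1 / L) θ d) L d η1 t s ≤
      (3 * ε' + η1) * EA F U1 U2 θ L (X1 / L) h t +
      100 * C ^ 2 * Real.exp A * EO F U1 U2 θ L (X1 / L) (h - 4 * (X1 / L)) t := by
  classical
  unfold EA EO
  rw [Finset.mul_sum, Finset.mul_sum, Finset.sum_filter, ← Finset.sum_add_distrib]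
  refine Finset.sum_le_sum fun s hs => ?_
  have hm : (0 : ℝ) ≤ mult F s := Nat.cast_nonneg _
  refine (mul_le_mul_of_nonneg_left (ci_le hF hU hT hN hin hI t hs) hm).trans (le_of_eq ?_)
  by_cases hc : h - 4 * (X1 / L) < |s.im - t|
  · rw [if_pos hc, if_pos hc]; ring
  · rw [if_neg hc, if_neg hc]; ring

end

end Run7.h311.WI
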