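import Pool.Agent.N802.WD.One6
import Pool.Agent.Run7.h311.WI.Cost

/-! # Isolated simple zeros in every weight: one height -/

open Complex Filter Topology Set MeasureTheory
open scoped BigOperators ComplexConjugate

namespace Run7.h311.WI

open H370 hiding pt
open TC Pool.Agent.N802.U Pool.Agent.N802 Pool.Agent.N802.WD
open Pool.Agent.N845.U2 (cnt cnt_int)
open TH803CL (isoZ)

lemma kap_cts : Continuous kap := by
  unfold kap
  apply intervalIntegral.continuous_parametric_intervalIntegral_of_continuous'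
  have : Continuous g0 := by unfold g0; fun_prop
  fun_prop

lemma kap_near {η : ℝ} (hη : 0 < η) : ∃ δ : ℝ, 0 < δ ∧ δ ≤ 1 / 10 ∧
    ∀ w : ℂ, ‖w‖ ≤ 6 * δ → ‖kap w - 1‖ ≤ η := by
  have h := kap_cts.tendsto 0
  rw [kap_zero, Metric.tendsto_nhds] at h
  have h1 := h η hη
  rw [Metric.eventually_nhds_iff] at h1
  obtain ⟨ρ, hρ, h2⟩ := h1
  refine ⟨min (1 / 10) (ρ / 12), by positivity, min_le_left _ _, fun w hw => ?_⟩
  have h3 : min (1 / 10) (ρ / 12) ≤ ρ / 12 := min_le_right _ _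
  have h4 := h2 (y := w) (by rw [dist_zero_right]; linarith)
  rw [dist_eq_norm] at h4
  exact h4.le

open Classical in
/-- the indicator of the simple zeros on the critical line that have distance at least
`d₀ / log (s.im)` from all other zeros in the critical strip -/
noncomputable def cI (F : ℂ → ℂ) (d0 : ℝ) (s : ℂ) : ℝ :=
  if s.re = 1 / 2 ∧ mult F s = 1 ∧ ∀ s' : ℂ, F s' = 0 → 0 < s'.re → s'.re < 1 → s' ≠ s →
    d0 / Real.log s.im ≤ ‖s' - s‖ then 1 else 0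

lemma cI_nonneg (F : ℂ → ℂ) (d0 : ℝ) (s : ℂ) : 0 ≤ cI F d0 s := by
  unfold cI
  split_ifs <;> norm_num

lemma cI_le {F : ℂ → ℂ} (hF : GoodL F) (d0 : ℝ) (s : ℂ) (_h0 : 0 < s.re) (_h1 : s.re < 1)
    (h2 : 1 < s.im) (h3 : F s = 0) : cI F d0 s ≤ mult F s := by
  have h4 : 1 ≤ mult F s := Loc.mult_pos' hF (by linarith) h3
  have h5 : (1 : ℝ) ≤ mult F s := by exact_mod_cast h4
  unfold cI
  split_ifs
  · exact h5
  · linarith

lemma ni_cnt {F : ℂ → ℂ} (hF : GoodL F) {T d0 U1 U2 h h' t : ℝ} (hd0 : 0 < d0)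
    (hd1 : d0 ≤ 1 / 10) (hU11 : 1 ≤ U1) (hL : 100 ≤ Real.log T) (hU1 : T ≤ U1)
    (hU1' : U1 ≤ T + 1)
    (hU2 : 2 * T - 1 ≤ U2) (ht1 : T + Real.log T ≤ t) (ht2 : t ≤ 2 * T - Real.log T)
    (hh : h' ≤ h) (hh1 : h ≤ 1) :
    ni F U1 U2 (d0 / Real.log T) h' t ≤ cnt (Zf F U1 U2) (cI F d0) h t := by
  classical
  have hT0 : 0 < T := by
    by_contra hc
    push Not at hc
    have h1 : 2 * T - Real.log T ≥ T + Real.log T := by linarith
    linarith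
  have hTe : 1 < T := by
    by_contra hc
    push Not at hc
    have := Real.log_nonpos hT0.le hc
    linarith
  unfold ni cnt
  rw [Finset.card_eq_sum_ones, Nat.cast_sum]
  have h1 : (isoZ F U1 U2 (d0 / Real.log T)).filter (fun s => |s.im - t| ≤ h') ⊆ Zf F U1 U2 := by
    intro s hs
    unfold isoZ at hs
    rw [Finset.mem_filter, Finset.mem_filter] at hs
    exact hs.1.1
  refine le_trans ?_ (Finset.sum_le_sum_of_subset_of_nonneg h1 fun s _ _ => ?_)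
  · refine Finset.sum_le_sum fun s hs => ?_
    unfold isoZ at hs
    rw [Finset.mem_filter, Finset.mem_filter] at hs
    obtain ⟨⟨hs1, hs2, hs3, hs4⟩, hs5⟩ := hs
    have hsz := (mem_Zf hF hU11).mp hs1
    have hsim := (abs_le.1 hs5)
    have hlog : Real.log T ≤ Real.log s.im :=
      Real.log_le_log hT0 (by linarith [hsz.2.2.1])
    have hL0 : 0 < Real.log T := by linarith
    have hdd : d0 / Real.log s.im ≤ d0 / Real.log T := by gcongr
    have h2 : cI F d0 s = 1 := by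
      unfold cI
      rw [if_pos]
      refine ⟨hs2, hs3, fun s' h3 h4 h5 h6 => ?_⟩
      by_cases h7 : s' ∈ Zf F U1 U2
      · rw [norm_sub_rev]
        exact hdd.trans (hs4 s' h7 h6)
      · have h8 : ¬ (U1 < s'.im ∧ s'.im ≤ U2) := by
          rintro ⟨h9, h10⟩
          exact h7 ((mem_Zf hF hU11).mpr ⟨h4, h5, h9, h10, h3⟩)
        have h9 : 1 ≤ |s'.im - s.im| := by
          rcases not_and_or.1 h8 with h10 | h10
          · push Not at h10
            rw [abs_sub_comm]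
            refine le_trans ?_ (le_abs_self _)
            linarith [hsim.1]
          · push Not at h10
            refine le_trans ?_ (le_abs_self _)
            linarith [hsim.2]
        have h10 : d0 / Real.log T ≤ 1 := by
          rw [div_le_one hL0]
          linarith
        have h11 := Complex.abs_im_le_norm (s' - s)
        rw [Complex.sub_im] at h11
        linarith
    rw [h2, if_pos (hs5.trans hh)]
    norm_num
  · have := cI_nonneg F d0 s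
    split_ifs <;> linarith

/-- the parameters -/
lemma pars2 {ε θ Ce : ℝ} (hε : 0 < ε) (hCe : 0 < Ce) (hθ : 0 < θ) {C : ℝ} (hC : 1 ≤ C) :
    ∃ ε' A κ : ℝ, 0 < ε' ∧ ε' ≤ 1 / 10 ∧ ε' ≤ ε / 400 ∧
      2 * Real.pi * ε' * Ce ≤ ε / 400 ∧ 1 ≤ A ∧
      (27 + 8 * C ^ 2) * Real.exp (-(θ / 2 * A)) ≤ ε' ∧ 0 < κ ∧ κ ≤ 1 ∧
      4 * C * Real.exp (-(1 / (3 * κ))) ≤ ε' ^ 2 := by
  have hπ := Real.pi_pos
  obtain ⟨ε', hε'0, hε'1, hε'2, hε'3⟩ : ∃ ε' : ℝ, 0 < ε' ∧ ε' ≤ 1 / 10 ∧ ε' ≤ ε / 400 ∧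
      ε' ≤ ε / (800 * Real.pi * Ce) :=
    ⟨min (1 / 10) (min (ε / 400) (ε / (800 * Real.pi * Ce))),
      lt_min (by norm_num) (lt_min (by positivity) (by positivity)), min_le_left _ _,
      (min_le_right _ _).trans (min_le_left _ _), (min_le_right _ _).trans (min_le_right _ _)⟩
  have hC0 : 0 < C := by linarith
  obtain ⟨B, hB⟩ : ∃ B : ℝ, B = max 1 (Real.log ((27 + 8 * C ^ 2) / ε')) := ⟨_, rfl⟩
  obtain ⟨D, hD⟩ : ∃ D : ℝ, D = max 1 (Real.log (4 * C / ε' ^ 2)) := ⟨_, rfl⟩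
  have hB1 : 1 ≤ B := by rw [hB]; exact le_max_left _ _
  have hD1 : 1 ≤ D := by rw [hD]; exact le_max_left _ _
  refine ⟨ε', 1 + 2 * B / θ, 1 / (3 * D), hε'0, hε'1, hε'2, ?_, ?_, ?_, by positivity,
    ?_, ?_⟩
  · rw [le_div_iff₀ (by positivity)] at hε'3
    linarith
  · have : 0 < 2 * B / θ := by positivity
    linarith
  · have h1 : B ≤ θ / 2 * (1 + 2 * B / θ) := by
      have : θ / 2 * (1 + 2 * B / θ) = θ / 2 + B := by field_simp
      rw [this]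
      linarith
    have h2 : Real.exp (-B) ≤ ((27 + 8 * C ^ 2) / ε')⁻¹ := by
      rw [Real.exp_neg]
      apply inv_anti₀ (by positivity)
      rw [← Real.log_le_iff_le_exp (by positivity), hB]
      exact le_max_right _ _
    calc (27 + 8 * C ^ 2) * Real.exp (-(θ / 2 * (1 + 2 * B / θ))) ≤
        (27 + 8 * C ^ 2) * Real.exp (-B) := by gcongr
      _ ≤ (27 + 8 * C ^ 2) * ((27 + 8 * C ^ 2) / ε')⁻¹ := by gcongr
      _ = ε' := by rw [inv_div]; field_simp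
  · rw [div_le_one (by positivity)]
    linarith
  · have h1 : 1 / (3 * (1 / (3 * D))) = D := by field_simp
    rw [h1]
    have h2 : Real.exp (-D) ≤ (4 * C / ε' ^ 2)⁻¹ := by
      rw [Real.exp_neg]
      apply inv_anti₀ (by positivity)
      rw [← Real.log_le_iff_le_exp (by positivity), hD]
      exact le_max_right _ _
    calc 4 * C * Real.exp (-D) ≤ 4 * C * (4 * C / ε' ^ 2)⁻¹ := by gcongr
      _ = ε' ^ 2 := by rw [inv_div]; field_simp


lemma finI {U ε ε0 ε' e1 P1 KN P3 P4 Z c : ℝ} (hεU : 0 ≤ ε * U) (a1 : (1 - 0.03 * ε) * U ≤ P1)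
    (b1 : 30 * (ε' * KN) ≤ 30 * (ε / 400 * U)) (b2 : 10 * e1 * KN ≤ ε0 * U)
    (a3 : P3 ≤ (1.3275 + 0.13 * ε) * U) (b3 : c * P4 ≤ ε / 400 * U) :
    (0.6725 - ε0 - ε) * U ≤ 2 * P1 - (30 * ε' + 10 * e1) * KN - P3 - c * P4 - 0 * Z := by
  linarith

section

variable {F : ℂ → ℂ} (hF : GoodL F) {U1 U2 : ℝ} (hU : 1 ≤ U1) {η ε' L h A X1 κ C θ : ℝ} {n : ℕ}
  {G : ℂ → ℂ} {w : ℝ → ℂ} {Gp : ℂ → ℂ} {gp : ℝ → ℂ}
  (hT : TwD η ε' L h A (X1 / L) κ C n G w Gp gp) (hN : NumD η ε' L h A X1 κ C θ n)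
  (hin : ∀ z : ℂ, |z.im| * L ≤ A → |z.re| ≤ h - 2 * (X1 / L) →
    ‖1 - G z ^ 2 * cexp (-z ^ 2 / 2)‖ ≤ ε')
  {d0 e1 : ℝ} (hd0 : 0 < d0) (hd1 : d0 ≤ 1 / 10) (hI : NumI η ε' A C θ n L (d0 / L) e1)
  {Ce ε m : ℝ} (hK : Kn Ce ε ε' L h X1 C) (hηε : η ≤ ε / 100) {ρ : ℝ → ℝ} (hρc : Continuous ρ)
  (hρ0 : ∀ t, 0 ≤ ρ t) {A0 B0 : ℝ} (hab : A0 ≤ B0) (hm : 0 ≤ m)
  (hEA : ∫ t in A0..B0, ρ t * EA F U1 U2 θ L (X1 / L) h t ≤ Ce * (h * L + X1) * m)
  (hEO2 : ∫ t in A0..B0, ρ t * EO F U1 U2 θ L (X1 / L) (h - 4 * (X1 / L)) t ≤ Ce * X1 * m)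

include hF hU hT hN hin hd0 hd1 hI in
lemma ptI {Λ T t : ℝ} (hL : L = Real.log T) (hΛ0 : 0 ≤ Λ) (hΛL : Λ ≤ L)
    (hker : ∀ w : ℂ, ‖w‖ ≤ 6 * d0 → ‖kap w - 1‖ ≤ e1) (hU1 : T ≤ U1) (hU1' : U1 ≤ T + 1)
    (hU2 : 2 * T - 1 ≤ U2) (ht1 : T + L ≤ t) (ht2 : t ≤ 2 * T - L) :
    2 * (SS F U1 U2 (fun z => G z ^ 2) 0 t).re -
      2 * (∫ α in (0 : ℝ)..1, Rf α * ‖SS F U1 U2 (fun z => G z ^ 2) (Λ * α) t‖ ^ 2) -
      10 * ((3 * ε' + e1) * EA F U1 U2 θ L (X1 / L) h t +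
      100 * C ^ 2 * Real.exp A * EO F U1 U2 θ L (X1 / L) (h - 4 * (X1 / L)) t) ≤
        cnt (Zf F U1 U2) (cI F d0) h t := by
  have hLpos : 0 < L := by linarith [hN.L1]
  have hX0 := hN.X0
  have h1 := icount hF (U2 := U2) hU (G := G) hT.cj
    (th := thf L h A (X1 / L) θ (d0 / L)) (Λ := Λ) (L := L) (d := d0 / L)
    (η1 := e1) t hΛ0 hΛL (by linarith [hN.L1]) hI.d0 hI.dL hI.e0 hI.e1 (fun u hu => by
      apply hker
      rw [norm_mul]
      have h2 : ‖((Λ : ℝ) : ℂ)‖ ≤ L := by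
        rw [Complex.norm_real, Real.norm_of_nonneg hΛ0]
        exact hΛL
      calc ‖((Λ : ℝ) : ℂ)‖ * ‖u‖ ≤ L * (6 * (d0 / L)) := by gcongr
        _ = 6 * d0 := by field_simp) (fun y hy0 hyd => by
      unfold thf
      have h2 : y * L < A := by
        have h3 : y * L ≤ d0 / L * L := by gcongr
        rw [div_mul_cancel₀ _ hLpos.ne'] at h3
        linarith [hI.A0]
      rw [if_pos h2, if_pos (by linarith [hI.A0])])
  have hth0 : thf L h A (X1 / L) θ (d0 / L) 0 = h - 3 * (X1 / L) := by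
    unfold thf
    rw [if_pos (by linarith [hI.A0])]
  have h2 := ci_sum (U2 := U2) hF hU hT hN hin hI t
  have h3 := ni_cnt hF (d0 := d0) (t := t) (T := T) (U2 := U2) hd0 hd1 hU
    (by rw [← hL]; exact hN.L1) hU1 hU1' hU2 (by
      rw [← hL]; exact ht1) (by rw [← hL]; exact ht2) (h := h) (h' := h - 3 * (X1 / L))
    (by linarith) (by linarith [hN.h1])
  rw [hth0] at h1
  rw [← hL] at h3
  linarith

include hT hN hI hK hηε hρc hρ0 hab hm hEA hEO2 in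
/-- the lower bound for the isolated zeros -/
lemma xbI {Λ ε0 : ℝ} {x : ℝ → ℝ} (hCe0 : 0 < Ce) (he12 : 20 * Real.pi * e1 * Ce ≤ ε0)
    (hH : 1000 * C ^ 2 * Real.exp A * Ce * X1 ≤ ε / 400 * (h * L / Real.pi))
    (A1 : (1 - η - ε / 50) * (m * (h * L / Real.pi)) ≤
      ∫ t in A0..B0, ρ t * (SS F U1 U2 (fun z => G z ^ 2) 0 t).re)
    (A3 : ∫ t in A0..B0, ρ t * (2 * ∫ α in (0 : ℝ)..1, Rf α *
      ‖SS F U1 U2 (fun z => G z ^ 2) (Λ * α) t‖ ^ 2) ≤
      ((1 + η) * (cMTinv + ε / 10) + ε / 100) * (m * (h * L / Real.pi)))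
    (ix : IntervalIntegrable (fun t => ρ t * x t) volume A0 B0)
    (hpt : ∀ t ∈ Set.Icc A0 B0, 2 * (SS F U1 U2 (fun z => G z ^ 2) 0 t).re -
      2 * (∫ α in (0 : ℝ)..1, Rf α * ‖SS F U1 U2 (fun z => G z ^ 2) (Λ * α) t‖ ^ 2) -
      10 * ((3 * ε' + e1) * EA F U1 U2 θ L (X1 / L) h t +
      100 * C ^ 2 * Real.exp A * EO F U1 U2 θ L (X1 / L) (h - 4 * (X1 / L)) t) ≤ x t) :
    (0.6725 - ε0 - ε) * (m * (h * L / Real.pi)) ≤ ∫ t in A0..B0, ρ t * x t := by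
  have hπ := Real.pi_pos
  have hε' := hN.ε0
  have hL : 0 < L := by linarith [hN.L1]
  have hh := hN.h0
  have hε := hK.hε
  have hε1 := hK.hε1
  have hε'2 := hK.hε'
  have hC := hN.C1
  have hη := hN.η0
  have he1 := hI.e0
  set U := m * (h * L / Real.pi) with hUd
  have hU0 : 0 ≤ U := by positivity
  have cS := SS_cont2 hT.bw F U1 U2 Λ
  have cE : Continuous (fun t : ℝ => ∫ α in (0 : ℝ)..1, Rf α *
      ‖SS F U1 U2 (fun z => G z ^ 2) (Λ * α) t‖ ^ 2) := by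
    apply intervalIntegral.continuous_parametric_intervalIntegral_of_continuous'
    exact (Rf_cont.comp continuous_snd).mul (cS.norm.pow 2)
  have cR : Continuous fun t : ℝ => (SS F U1 U2 (fun z => G z ^ 2) 0 t).re :=
    Complex.continuous_re.comp (SS_cont0 hT.bw F U1 U2)
  have hpt' : ∀ t ∈ Set.Icc A0 B0, 4 * ((SS F U1 U2 (fun z => G z ^ 2) 0 t).re / 2) -
      (30 * ε' + 10 * e1) * EA F U1 U2 θ L (X1 / L) h t - (2 * ∫ α in (0 : ℝ)..1, Rf α *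
        ‖SS F U1 U2 (fun z => G z ^ 2) (Λ * α) t‖ ^ 2) -
      (1000 * C ^ 2 * Real.exp A) * EO F U1 U2 θ L (X1 / L) (h - 4 * (X1 / L)) t - 0 ≤ x t := by
    intro t ht
    have h1 := hpt t ht
    linarith
  have hfin := asm hab hρ0
    ((hρc.mul (cR.div_const 2)).intervalIntegrable _ _)
    (EA_int F U1 U2 hρc hN.X0 θ L h A0 B0)
    ((hρc.mul (continuous_const.mul cE)).intervalIntegrable _ _)
    (EO_int F U1 U2 hρc hN.X0 θ L (h - 4 * (X1 / L)) A0 B0)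
    ix (hρc.intervalIntegrable _ _) hpt'
  refine le_trans ?_ hfin
  have e1' : 4 * (∫ t in A0..B0, ρ t * ((SS F U1 U2 (fun z => G z ^ 2) 0 t).re / 2)) =
      2 * ∫ t in A0..B0, ρ t * (SS F U1 U2 (fun z => G z ^ 2) 0 t).re := by
    rw [← intervalIntegral.integral_const_mul, ← intervalIntegral.integral_const_mul]
    refine intervalIntegral.integral_congr fun t _ => ?_
    show 4 * (ρ t * ((SS F U1 U2 (fun z => G z ^ 2) 0 t).re / 2)) =
      2 * (ρ t * (SS F U1 U2 (fun z => G z ^ 2) 0 t).re)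
    ring
  rw [e1']
  have b1 : 30 * (ε' * ∫ t in A0..B0, ρ t * EA F U1 U2 θ L (X1 / L) h t) ≤ 30 * (ε / 400 * U) :=
    mul_le_mul_of_nonneg_left (ea_small hN hK hm hEA) (by norm_num)
  have b2 : 10 * e1 * (∫ t in A0..B0, ρ t * EA F U1 U2 θ L (X1 / L) h t) ≤ ε0 * U := by
    calc 10 * e1 * (∫ t in A0..B0, ρ t * EA F U1 U2 θ L (X1 / L) h t) ≤
        10 * e1 * (Ce * (h * L + X1) * m) :=
          mul_le_mul_of_nonneg_left hEA (by positivity)
      _ ≤ 10 * e1 * (Ce * (h * L + h * L) * m) := by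
          have := hK.hX
          gcongr
      _ = (20 * Real.pi * e1 * Ce) * U := by rw [hUd]; field_simp; ring
      _ ≤ ε0 * U := mul_le_mul_of_nonneg_right he12 hU0
  have b3 : (1000 * C ^ 2 * Real.exp A) * (∫ t in A0..B0, ρ t *
      EO F U1 U2 θ L (X1 / L) (h - 4 * (X1 / L)) t) ≤ ε / 400 * U := by
    calc 1000 * C ^ 2 * Real.exp A * (∫ t in A0..B0, ρ t *
        EO F U1 U2 θ L (X1 / L) (h - 4 * (X1 / L)) t) ≤
        1000 * C ^ 2 * Real.exp A * (Ce * X1 * m) :=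
          mul_le_mul_of_nonneg_left hEO2 (by positivity)
      _ = (1000 * C ^ 2 * Real.exp A * Ce * X1) * m := by ring
      _ ≤ (ε / 400 * (h * L / Real.pi)) * m := mul_le_mul_of_nonneg_right hH hm
      _ = _ := by rw [hUd]; ring
  have hcM := Pool.Agent.W354.ZP.cMTinv_sharp
  have b4 : (1 + η) * (cMTinv + ε / 10) ≤ 1.3275 + 0.12 * ε := by
    calc (1 + η) * (cMTinv + ε / 10) ≤ (1 + η) * (1.3275 + ε / 10) := by
          apply mul_le_mul_of_nonneg_left _ (by linarith)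
          linarith
      _ ≤ _ := by nlinarith
  have a3 := A3.trans (mul_le_mul_of_nonneg_right (by linarith :
    (1 + η) * (cMTinv + ε / 10) + ε / 100 ≤ 1.3275 + 0.13 * ε) hU0)
  have a1 : (1 - 0.03 * ε) * U ≤
      ∫ t in A0..B0, ρ t * (SS F U1 U2 (fun z => G z ^ 2) 0 t).re := by
    refine le_trans (mul_le_mul_of_nonneg_right ?_ hU0) A1
    linarith
  have hεU : 0 ≤ ε * U := by positivity
  exact finI hεU a1 b1 b2 a3 b3

end

end Run7.h311.WI
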