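import Pool.Agent.N802.WD.Tw

/-! # The two windows, with one more property of the lower one -/

open Complex Filter Topology Set MeasureTheory
open scoped BigOperators ComplexConjugate

namespace Run7.h311.WI

open H370 hiding pt
open TC Pool.Agent.N802.U Pool.Agent.N802.WD

/-- the two windows; the lower one is close to `1` well inside -/
theorem twi (hwin : S_win2) (hsq : S_sq) (hpl : S_pl) (hgs : S_gs) (n : ℕ) (hn : 1 ≤ n) :
    ∃ C : ℝ, 1 ≤ C ∧ ∀ η ε' A κ : ℝ, 0 < η → η ≤ 1 / 10 → 0 < ε' → ε' ≤ 1 / 10 → 0 < A →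
      0 < κ → κ ≤ 1 → ∃ X1 H0 δ : ℝ, 1 ≤ X1 ∧ X1 ≤ H0 ∧ 0 < δ ∧ ∀ L, 100 ≤ L →
      ∀ h : ℝ, H0 / L ≤ h → h ≤ δ → ∃ (G : ℂ → ℂ) (w : ℝ → ℂ) (Gp : ℂ → ℂ) (gp : ℝ → ℂ),
      TwD η ε' L h A (X1 / L) κ C n G w Gp gp ∧
      ∀ z : ℂ, |z.im| * L ≤ A → |z.re| ≤ h - 2 * (X1 / L) →
        ‖1 - G z ^ 2 * cexp (-z ^ 2 / 2)‖ ≤ ε' := by
  obtain ⟨C, hC, hw⟩ := winq hwin n hn
  refine ⟨2 ^ (2 * n - 1) * C, ?_, fun η ε' A κ hη hη1 hε hε1 hA hκ hκ1 => ?_⟩
  · exact hC.trans (le_mul_of_one_le_left (by linarith) (one_le_pow₀ (by norm_num)))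
  have hn0 : (0 : ℝ) < n := by exact_mod_cast hn
  obtain ⟨e1, he0, he1, heη, heε⟩ : ∃ e1 : ℝ, 0 < e1 ∧ e1 < 1 ∧ 6 * e1 ≤ η / 25 ∧
      6 * e1 ≤ ε' / 4 := by
    refine ⟨min (η / 150) (ε' / 24), lt_min (by positivity) (by positivity), ?_, ?_, ?_⟩
    · exact (min_le_left _ _).trans_lt (by linarith)
    · have := min_le_left (η / 150) (ε' / 24)
      linarith
    · have := min_le_right (η / 150) (ε' / 24)
      linarith
  obtain ⟨ℓ, hℓ1, hℓ⟩ : ∃ ℓ : ℝ, 1 ≤ ℓ ∧ Real.exp (-ℓ) ≤ e1 := by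
    refine ⟨max 1 (-Real.log e1), le_max_left _ _, ?_⟩
    calc Real.exp (-max 1 (-Real.log e1)) ≤ Real.exp (-(-Real.log e1)) :=
          Real.exp_le_exp.2 (neg_le_neg (le_max_right _ _))
      _ = e1 := by rw [neg_neg, Real.exp_log he0]
  obtain ⟨S0, hS0⟩ : ∃ S0 : ℝ, S0 = A / κ := ⟨_, rfl⟩
  have hS00 : 0 < S0 := by rw [hS0]; positivity
  obtain ⟨Y, hY⟩ : ∃ Y : ℝ, Y = 4 * n / (η * e1) := ⟨_, rfl⟩
  have hY0 : 0 < Y := by rw [hY]; positivity
  obtain ⟨M, hM⟩ : ∃ M : ℝ, M = S0 * ℓ + Y := ⟨_, rfl⟩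
  have hSℓ : S0 ≤ S0 * ℓ := le_mul_of_one_le_right hS00.le hℓ1
  obtain ⟨X1, hX1⟩ : ∃ X1 : ℝ, X1 = 1 + 2 / η + M := ⟨_, rfl⟩
  have h2η : 0 < 2 / η := by positivity
  obtain ⟨H0, hH0⟩ : ∃ H0 : ℝ, H0 = X1 + 100 * M / η := ⟨_, rfl⟩
  have hM0 : 0 < M := by rw [hM]; positivity
  refine ⟨X1, H0, min (η / 100) (ε' / 100), ?_, ?_, lt_min (by positivity) (by positivity),
    fun L hL h hh1 hh2 => ?_⟩
  · rw [hX1]; linarith
  · rw [hH0]
    have : 0 < 100 * M / η := by positivity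
    linarith
  have hL0 : 0 < L := by linarith
  have hH0p : 0 < H0 := by rw [hH0, hX1]; positivity
  have hh0 : 0 < h := lt_of_lt_of_le (by positivity) hh1
  have hX10 : 0 < X1 := by rw [hX1]; positivity
  have hhL : H0 ≤ h * L := by rwa [div_le_iff₀ hL0] at hh1
  have hP : ParD η ε' L h A (η * L / 2) (S0 / L) (S0 * ℓ / L) (Y / L) κ (X1 / L) e1 n := by
    constructor
    · exact hL
    · exact hη
    · exact hη1
    · exact hε
    · exact hε1
    · positivity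
    · rfl
    · positivity
    · positivity
    · positivity
    · exact hh0
    · exact hκ
    · exact hκ1
    · rw [← add_div, ← hM, div_le_iff₀ hL0]
      have h1 : 100 * M / η ≤ h * L := by
        refine le_trans ?_ hhL
        rw [hH0]
        linarith
      rw [div_le_iff₀ hη] at h1
      linarith
    · gcongr
    · rw [← add_div, ← hM]
      gcongr
      rw [hX1]; linarith
    · rw [one_div_le (by positivity) (by positivity), one_div_div]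
      rw [div_le_iff₀ hX10]
      have h1 : 2 / η ≤ X1 := by rw [hX1]; linarith
      rw [div_le_iff₀ hη] at h1
      nlinarith
    · exact hh2.trans (min_le_left _ _)
    · exact hh2.trans (min_le_right _ _)
    · rw [hS0]; field_simp
    · have : S0 * ℓ / L / (S0 / L) = ℓ := by field_simp
      rw [this]
      exact hℓ
    · have h1 : 2 * (n : ℝ) / (η * L / 2 * (Y / L)) = e1 := by
        rw [hY]
        field_simp
        norm_num
      rw [h1]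
      have h2 : e1 ^ (2 * n - 1) ≤ e1 ^ 1 :=
        pow_le_pow_of_le_one he0.le he1.le (by omega)
      rwa [pow_one] at h2
    · exact heη
    · exact heε
  have hsX : S0 / L ≤ X1 / L := by
    gcongr
    rw [hX1]; linarith
  have hsh := hP.s_le
  obtain ⟨G, g, hG⟩ := hw (η * L / 2) (S0 / L) (h - S0 / L) (X1 / L) hP.b0 hP.s0 (by linarith) hsX
    hP.bX0
  obtain ⟨Gp, gp, hGp⟩ := hw (η * L / 2) (S0 / L) (h + (S0 * ℓ / L + Y / L)) (X1 / L) hP.b0 hP.s0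
    (by positivity) hsX hP.bX0
  obtain ⟨w, hT⟩ := twp hsq hpl hgs hC hP hG hGp
  refine ⟨G, w, Gp, gp, hT, fun z hz hx => ?_⟩
  have e1 : S0 / L + (S0 * ℓ / L + Y / L) ≤ 2 * (X1 / L) := by
    rw [← add_div, ← add_div, ← mul_div_assoc]
    apply div_le_div_of_nonneg_right _ hL0.le
    rw [hX1, hM]
    nlinarith
  have hX1L : 0 ≤ X1 / L := by positivity
  have h1 := (hP.innG hG (hP.im_le' hz) (by linarith)).trans hP.eε
  have hs := hP.s_le
  have hh := hP.hε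
  have hz2 : ‖z‖ ≤ 2 * h := by
    have := Complex.norm_le_abs_re_add_abs_im z
    have h3 := hP.im_le' hz
    linarith
  have h3 : ‖-z ^ 2 / 2‖ ≤ 2 * h ^ 2 := by
    rw [norm_div, norm_neg, norm_pow, Complex.norm_ofNat]
    have : ‖z‖ ^ 2 ≤ (2 * h) ^ 2 := pow_le_pow_left₀ (norm_nonneg _) hz2 2
    linarith
  have hh2 : 2 * h ^ 2 ≤ ε' / 100 := by
    have h5 : h ≤ 1 / 1000 := by linarith
    nlinarith
  have h4 := exp_near (w := -z ^ 2 / 2) (by linarith)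
  have h5 : ‖cexp (-z ^ 2 / 2) - 1‖ ≤ ε' / 50 := by linarith
  have h6 : ‖G z ^ 2 - 1‖ ≤ ε' * (3 / 5) := by
    have e2 : G z ^ 2 - 1 = (G z - 1) * ((G z - 1) + 2) := by ring
    rw [e2, norm_mul]
    have h7 : ‖(G z - 1) + 2‖ ≤ ε' / 4 + 2 := by
      refine (norm_add_le _ _).trans ?_
      rw [Complex.norm_ofNat]
      linarith
    calc ‖G z - 1‖ * ‖(G z - 1) + 2‖ ≤ (ε' / 4) * (ε' / 4 + 2) :=
          mul_le_mul h1 h7 (norm_nonneg _) (by positivity)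
      _ ≤ _ := by nlinarith
  have e : 1 - G z ^ 2 * cexp (-z ^ 2 / 2) =
      -((G z ^ 2 - 1) * (cexp (-z ^ 2 / 2) - 1) + (G z ^ 2 - 1) + (cexp (-z ^ 2 / 2) - 1)) := by ring
  rw [e, norm_neg]
  refine (norm_add_le _ _).trans ?_
  have h7 := norm_add_le ((G z ^ 2 - 1) * (cexp (-z ^ 2 / 2) - 1)) (G z ^ 2 - 1)
  have h8 : ‖(G z ^ 2 - 1) * (cexp (-z ^ 2 / 2) - 1)‖ ≤ ε' * (3 / 5) * (1 / 100) := by
    rw [norm_mul]
    exact mul_le_mul h6 (by linarith) (norm_nonneg _) (by positivity)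
  linarith

end Run7.h311.WI
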