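import Pool.Agent.N802.WD.Core6
import Pool.Agent.Run7.h311.WI.Win
import Pool.Agent.Run7.h311.WI.One

/-! # Isolated simple zeros in every weight: Gaussian weights, windows of width `H₀ / log T` -/

open Complex Filter Topology Set MeasureTheory
open scoped BigOperators ComplexConjugate

namespace Run7.h311.WI

open H370 hiding pt
open TC Pool.Agent.N802.U Pool.Agent.N802 Pool.Agent.N802.WD
open Pool.Agent.N845.U2 (cnt cnt_int)

theorem coreI (hwin : S_win2) (hsq : S_sq) (hpl : S_pl) (hgs : S_gs) (hms : S_ms2) (hfm : S_fm2)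
    {F : ℂ → ℂ} (hF : GoodL F) (hef : S_ef F) (hew : S_ew F) {ε0 : ℝ} (hε0 : 0 < ε0) :
    ∃ d0 : ℝ, 0 < d0 ∧ d0 ≤ 1 / 10 ∧ S_coreD F (0.6725 - ε0) (cI F d0) := by
  have hπ := Real.pi_pos
  have hπ3 := Real.pi_gt_three
  obtain ⟨θ, Ce, δe, Te, hθ0, hθ1, hCe, hδe, hTe, hew⟩ := hew
  obtain ⟨e1, he10, he11, he12⟩ : ∃ e1 : ℝ, 0 < e1 ∧ e1 ≤ 1 ∧ 20 * Real.pi * e1 * Ce ≤ ε0 := by
    refine ⟨min 1 (ε0 / (20 * Real.pi * Ce)), lt_min one_pos (by positivity), min_le_left _ _, ?_⟩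
    calc 20 * Real.pi * min 1 (ε0 / (20 * Real.pi * Ce)) * Ce ≤
        20 * Real.pi * (ε0 / (20 * Real.pi * Ce)) * Ce := by
          gcongr
          exact min_le_right _ _
      _ = ε0 := by field_simp
  obtain ⟨d0, hd0, hd1, hker⟩ := kap_near he10
  refine ⟨d0, hd0, hd1, ?_⟩
  intro ε hε hε1
  obtain ⟨a, CE, ha, hCE, hef⟩ := hef
  obtain ⟨η1, hη10, hη11, hms⟩ := hms (ε / 10) (by positivity)
  obtain ⟨η, hη, hηη1, hη10', hηθ, hηε⟩ : ∃ η : ℝ, 0 < η ∧ η ≤ η1 ∧ η ≤ 1 / 10 ∧ η ≤ θ / 4 ∧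
      η ≤ ε / 100 := by
    refine ⟨min (min η1 (1 / 10)) (min (θ / 4) (ε / 100)), ?_, ?_, ?_, ?_, ?_⟩
    · exact lt_min (lt_min hη10 (by norm_num)) (lt_min (by positivity) (by positivity))
    · exact (min_le_left _ _).trans (min_le_left _ _)
    · exact (min_le_left _ _).trans (min_le_right _ _)
    · exact (min_le_right _ _).trans (min_le_left _ _)
    · exact (min_le_right _ _).trans (min_le_right _ _)
  obtain ⟨δ1, T1, hδ1, hT1, hms⟩ := hms η hη hηη1
  obtain ⟨δ2, T2, Cf, hδ2, hT2, hCf, hfm⟩ := hfm η hη (by linarith)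
  obtain ⟨T3, hT3, hef⟩ := hef η hη (by linarith)
  obtain ⟨T4, hT4, hmass⟩ := rh_mass
  -- the exponent of the window
  obtain ⟨n, hn1, hnθ, hn8⟩ : ∃ n : ℕ, 1 ≤ n ∧ 2 ≤ ((2 * n - 1 : ℕ) : ℝ) * θ ∧
      1 ≤ (4 * (n : ℝ) - 4) * (θ / 8) := by
    refine ⟨⌈2 / θ⌉₊ + 1, by omega, ?_, ?_⟩
    · have h1 : (2 * (⌈2 / θ⌉₊ + 1) - 1 : ℕ) = 2 * ⌈2 / θ⌉₊ + 1 := by omega
      rw [h1]
      have h2 := Nat.le_ceil (2 / θ)
      push_cast
      have h3 : 2 ≤ (⌈2 / θ⌉₊ : ℝ) * θ := by rwa [div_le_iff₀ hθ0] at h2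
      linarith
    · have h2 := Nat.le_ceil (2 / θ)
      have h3 : 2 ≤ (⌈2 / θ⌉₊ : ℝ) * θ := by rwa [div_le_iff₀ hθ0] at h2
      push_cast
      linarith
  obtain ⟨C, hC, htw⟩ := twi hwin hsq hpl hgs n hn1
  obtain ⟨ε', A, κ, hε'0, hε'1, hε'2, hε'3, hA1, hfa, hκ, hκ1, hph⟩ := pars2 hε hCe hθ0 hC
  have hA : 0 < A := by linarith
  have hfar : (2 * C ^ 2 + 1) * Real.exp (-((θ - η) * A)) ≤ ε' := by
    refine le_trans ?_ hfa
    have h1 : Real.exp (-((θ - η) * A)) ≤ Real.exp (-(θ / 2 * A)) := by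
      apply Real.exp_le_exp.2
      apply neg_le_neg
      apply mul_le_mul_of_nonneg_right _ hA.le
      linarith
    have h2 : 2 * C ^ 2 + 1 ≤ 27 + 8 * C ^ 2 := by nlinarith
    exact mul_le_mul h2 h1 (Real.exp_pos _).le (by positivity)
  obtain ⟨X1, H1, δw, hX1, hXH, hδw, htw⟩ := htw η ε' A κ hη hη10' hε'0 hε'1 hA hκ hκ1
  obtain ⟨CM, hCM⟩ : ∃ CM : ℝ, CM = CE + 1 + 200 * Real.pi * Cf ^ 2 / ε := ⟨_, rfl⟩
  have hCM0 : 0 < CM := by rw [hCM]; positivity
  have hX10 : 0 < X1 := by linarith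
  have hC0 : 0 < C := by linarith
  obtain ⟨H0, hH0⟩ : ∃ H0 : ℝ, H0 = H1 + 800 * Real.pi * CM / ε +
      16800 * Real.pi * C ^ 2 * Ce * X1 / ε +
      400000 * Real.pi * C ^ 2 * Real.exp A * Ce * X1 / ε + 4 * X1 := ⟨_, rfl⟩
  have hH0a : 0 < 800 * Real.pi * CM / ε := by positivity
  have hH0c : 0 < 400000 * Real.pi * C ^ 2 * Real.exp A * Ce * X1 / ε := by positivity
  have hH0b : 0 < 16800 * Real.pi * C ^ 2 * Ce * X1 / ε := by positivity
  have hH00 : 0 < H0 := by rw [hH0]; linarith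
  obtain ⟨δ, hδ0, hδ1', hδ2', hδe', hδw', hδ8⟩ : ∃ δ : ℝ, 0 < δ ∧ δ ≤ δ1 ∧ δ ≤ δ2 ∧ δ ≤ δe ∧
      δ ≤ δw ∧ δ ≤ 1 / 8 := by
    refine ⟨min (min (min δ1 δ2) (min δe δw)) (1 / 8), ?_, ?_, ?_, ?_, ?_, ?_⟩
    · exact lt_min (lt_min (lt_min hδ1 hδ2) (lt_min hδe hδw)) (by norm_num)
    · exact (min_le_left _ _).trans ((min_le_left _ _).trans (min_le_left _ _))
    · exact (min_le_left _ _).trans ((min_le_left _ _).trans (min_le_right _ _))
    · exact (min_le_left _ _).trans ((min_le_right _ _).trans (min_le_left _ _))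
    · exact (min_le_left _ _).trans ((min_le_right _ _).trans (min_le_right _ _))
    · exact min_le_right _ _
  have hR0 : 0 ≤ Rf 0 := Rf_nonneg 0
  have ev : ∀ᶠ T : ℝ in atTop, max (max 100 X1) (max (4 * C * X1 / ε') (max (A / ε')
      ((1 + 1 / η) * (4 * Rf 0 * CM ^ 2) / (ε / 4 / 100)))) ≤ Real.log T ∧ Real.log T ≤ T / 4 ∧
      50 * Real.exp (δ * Real.log T + Real.log T - Real.log T ^ 2 / 4) ≤ 1 := by
    have e1 := Real.tendsto_log_atTop.eventually_ge_atTop (max (max 100 X1)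
      (max (4 * C * X1 / ε') (max (A / ε') ((1 + 1 / η) * (4 * Rf 0 * CM ^ 2) / (ε / 4 / 100)))))
    have e3 : ∀ᶠ T : ℝ in atTop, Real.log T ≤ T / 4 := by
      have h := Real.isLittleO_log_id_atTop.bound (show (0 : ℝ) < 1 / 4 by norm_num)
      filter_upwards [h, eventually_ge_atTop 1] with T hT hT1
      simp only [id] at hT
      rw [Real.norm_of_nonneg (Real.log_nonneg hT1), Real.norm_of_nonneg (by linarith)] at hT
      linarith
    have e4 := Real.tendsto_log_atTop.eventually (ev_f δ)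
    exact e1.and (e3.and e4)
  obtain ⟨T5, hT5⟩ := eventually_atTop.1 ev
  refine ⟨δ, H0, max (max (max T1 T2) (max T3 T4)) (max Te T5), hδ0, hH00,
    hT1.trans ((le_max_left _ _).trans ((le_max_left _ _).trans (le_max_left _ _))), fun T hT => ?_⟩
  have gT1 : T1 ≤ T := ((le_max_left _ _).trans ((le_max_left _ _).trans (le_max_left _ _))).trans hT
  have gT2 : T2 ≤ T := ((le_max_right _ _).trans ((le_max_left _ _).trans (le_max_left _ _))).trans hT
  have gT3 : T3 ≤ T := ((le_max_left _ _).trans ((le_max_right _ _).trans (le_max_left _ _))).trans hT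
  have gT4 : T4 ≤ T := ((le_max_right _ _).trans ((le_max_right _ _).trans (le_max_left _ _))).trans hT
  have gTe : Te ≤ T := ((le_max_left _ _).trans (le_max_right _ _)).trans hT
  have gT5 : T5 ≤ T := ((le_max_right _ _).trans (le_max_right _ _)).trans hT
  obtain ⟨hLL, hLT, s5⟩ := hT5 T gT5
  have hT10 : 10 ≤ T := hT1.trans gT1
  have hT0 : 0 < T := by linarith
  have hL100 : 100 ≤ Real.log T := ((le_max_left _ _).trans (le_max_left _ _)).trans hLL
  have hLX : X1 ≤ Real.log T := ((le_max_right _ _).trans (le_max_left _ _)).trans hLL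
  have hLa : 4 * C * X1 / ε' ≤ Real.log T :=
    ((le_max_left _ _).trans (le_max_right _ _)).trans hLL
  have hLb : A / ε' ≤ Real.log T :=
    ((le_max_left _ _).trans ((le_max_right _ _).trans (le_max_right _ _))).trans hLL
  have hLc : (1 + 1 / η) * (4 * Rf 0 * CM ^ 2) / (ε / 4 / 100) ≤ Real.log T :=
    ((le_max_right _ _).trans ((le_max_right _ _).trans (le_max_right _ _))).trans hLL
  have s2 : (1 + 1 / η) * (4 * Rf 0 * CM ^ 2) ≤ ε / 4 / 100 * Real.log T := by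
    rw [div_le_iff₀ (by positivity)] at hLc
    linarith
  obtain ⟨U1, U2, hU1, hU1', hU2, hU2', hef⟩ := hef T gT3
  refine ⟨U1, U2, hU1, hU1', hU2, hU2', fun h hh1 hh2 S hS r τ H hH hτ1 hτ2 => ?_⟩
  obtain ⟨L, hL⟩ : ∃ L : ℝ, L = Real.log T := ⟨_, rfl⟩
  rw [← hL] at hL100 hLX hLa hLb s2 hLT s5 hef hh1 hτ1 hτ2 ⊢
  have hLpos : 0 < L := by linarith
  have hhL : H0 ≤ h * L := by rwa [div_le_iff₀ hLpos] at hh1
  have hh0 : 0 < h := lt_of_lt_of_le (by positivity) hh1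
  have hh8 : h ≤ 1 / 8 := hh2.trans hδ8
  have hh1b : h ≤ 1 := by linarith
  obtain ⟨G, w, Gp, gp, hTw, hin⟩ := htw L hL100 h (by
    refine le_trans ?_ hh1
    have : H1 ≤ H0 := by rw [hH0]; linarith
    gcongr) (hh2.trans hδw')
  have s1 : 2 * CM ≤ ε / 4 / 100 * (h * L / Real.pi) := by
    have h1 : 800 * Real.pi * CM / ε ≤ h * L := by
      refine le_trans ?_ hhL
      rw [hH0]; linarith
    rw [div_le_iff₀ hε] at h1
    rw [mul_div_assoc', le_div_iff₀ hπ]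
    linarith
  have hN : NumD η ε' L h A X1 κ C θ n := by
    refine ⟨hL100, hη, by linarith, hθ0, hθ1, hε'0, hε'1, hh0, by linarith, hC, hX1, hn1, hnθ, hfar, hph,
      ?_, ?_⟩
    · rw [div_le_iff₀ hε'0] at hLa
      linarith
    · rw [div_le_iff₀ hε'0] at hLb
      linarith
  have hK : Kn Ce ε ε' L h X1 C := by
    refine ⟨hCe, hε, hε1, hε'2, hε'3, ?_, ?_⟩
    · have h1 : 16800 * Real.pi * C ^ 2 * Ce * X1 / ε ≤ h * L := by
        refine le_trans ?_ hhL
        rw [hH0]; linarith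
      rw [div_le_iff₀ hε] at h1
      rw [mul_div_assoc', le_div_iff₀ hπ]
      linarith
    · refine le_trans ?_ hhL
      rw [hH0]; linarith
  have hT1' : (1 : ℝ) ≤ T := by linarith
  have hwd : ∀ d : ℝ, δ ≤ d → T ^ (1 - d) ≤ H := fun d hd =>
    (Real.rpow_le_rpow_of_exponent_le hT1' (by linarith)).trans hH
  have hw1 := w1_nonneg S r
  have hR' : ∀ t, ‖RP S r t‖ ^ 2 ≤ Real.exp (δ * L) * w1 S r := by
    intro t
    rw [hL]
    exact RP_sq_le hT1' hδ0 hS r t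
  have hS1 : Len S (T ^ δ1) := Len_mono hS (Real.rpow_le_rpow_of_exponent_le hT1' hδ1')
  have hS2 : Len S (T ^ δ2) := Len_mono hS (Real.rpow_le_rpow_of_exponent_le hT1' hδ2')
  have hSe : Len S (T ^ δe) := Len_mono hS (Real.rpow_le_rpow_of_exponent_le hT1' hδe')
  have hS3 : Len S (T ^ (1 / 8 : ℝ)) := Len_mono hS (Real.rpow_le_rpow_of_exponent_le hT1' hδ8)
  have hM := hmass T gT4 S hS3 r τ H (by
    have := hwd (1 / 8) hδ8
    norm_num at this ⊢
    exact this)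
  have hW0 : ∀ x : ℝ, ((fun z => G z ^ 2) (x : ℂ)).im = 0 := by
    intro x
    simp only
    rw [sq_re hTw.cj x, Complex.ofReal_im]
  have hηL : 0 < η * L := by positivity
  have hηL1 : η * L ≤ (1 - 2 * η) * L := by
    apply mul_le_mul_of_nonneg_right _ hLpos.le
    linarith
  have hηL2 : η * L ≤ L := by
    calc η * L ≤ 1 * L := by
          apply mul_le_mul_of_nonneg_right _ hLpos.le
          linarith
      _ = _ := one_mul _
  have hq0 : 0 ≤ q2 w := integral_nonneg fun v => sq_nonneg _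
  have hqh : q2 w ≤ h := by
    refine hTw.q.trans ?_
    exact div_le_self hh0.le (by linarith)
  have hab : T + L ≤ 2 * T - L := by linarith
  have hH0' : 0 < H := lt_of_lt_of_le (by positivity) hH
  have hm0 : 0 ≤ mr H S r := by unfold mr; positivity
  have hfm' := fun (b : ℝ) (W : ℂ → ℂ) (v : ℝ → ℂ) (hW : BW b W v) (hb : 0 < b) (hb' : b ≤ L) =>
    hfm T gT2 a ha S hS2 r b W v hW hb (by rw [← hL]; exact hb') τ H (hwd δ2 hδ2')
  rw [← hL] at hfm'
  have P1 := first6 (U1 := U1) (U2 := U2) (τ := τ) (S := S) (r := r) hε hCf hCE hCM s1 hh0 hh1b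
    hL hL100 hLT s5 hη (by linarith) hδ0 hH0' hτ1 hτ2 hR' ha hTw.bw hqh
    (fun t ht1 ht2 => hef _ _ _ hTw.bw 0 t (by rw [abs_zero, zero_add]; exact hηL1) ht1 ht2)
    (hfm' _ _ _ hTw.bw hηL hηL2) hM
  have P2 := first6 (U1 := U1) (U2 := U2) (τ := τ) (S := S) (r := r) hε hCf hCE hCM s1 hh0 hh1b
    hL hL100 hLT s5 hη (by linarith) hδ0 hH0' hτ1 hτ2 hR' ha hTw.bwp hTw.qp
    (fun t ht1 ht2 => hef _ _ _ hTw.bwp 0 t (by rw [abs_zero, zero_add]; linarith) ht1 ht2)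
    (hfm' _ _ _ hTw.bwp (by positivity) (by linarith)) hM
  have P3 := en_use2 (F := F) (U1 := U1) (U2 := U2) (rh_cont τ H S r) (rh_nonneg τ H S r)
    (rh_intg (τ := τ) hH0' S r) hab hTw.bw (a := a)
    (X := ⌊T ^ (1 - η)⌋₊) (C := CE) (η := η) (Λ := (1 - 4 * η) * L) hη
    (fun α hα t ht1 ht2 => hef _ _ _ hTw.bw ((1 - 4 * η) * L * α) t (by
      have h4 : 0 ≤ 1 - 4 * η := by linarith
      rw [abs_of_nonneg (by have := hα.1; positivity)]
      have h1 : (1 - 4 * η) * L * α ≤ (1 - 4 * η) * L * 1 := by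
        apply mul_le_mul_of_nonneg_left hα.2
        positivity
      nlinarith) ht1 ht2) hM
  have P3' := hms T gT1 a ha S hS1 r (η * L) _ _ hTw.bw hηL (by rw [hL]) hW0 τ H (hwd δ1 hδ1')
  rw [← hL] at P3'
  have A3 := P3.trans (enb hη hCE hε hLpos hm0 hh0 hq0 hTw.q rfl hCM s2 P3')
  have hρc := rh_cont τ H S r
  have hρ0 := rh_nonneg τ H S r
  set m := mr H S r with hmd
  set U := m * (h * L / Real.pi) with hUd
  have hunit : m * L * (h / Real.pi) = U := by rw [hUd]; ring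
  rw [abs_le] at P1 P2
  have A1 : (1 - η - ε / 50) * U ≤
      ∫ t in (T + L)..(2 * T - L), rh τ H S r t * (SS F U1 U2 (fun z => G z ^ 2) 0 t).re := by
    have h2 : (1 - η) * U ≤ m * L * (gs w 0).re := by
      rw [← hunit]
      calc (1 - η) * (m * L * (h / Real.pi)) =
          m * L * ((1 - η) * (h / Real.pi)) := by ring
        _ ≤ _ := mul_le_mul_of_nonneg_left hTw.lo (by positivity)
    linarith [P1.1]
  have A2 : ∫ t in (T + L)..(2 * T - L), rh τ H S r t * (SS F U1 U2 Gp 0 t).re ≤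
      (1 + η + ε / 50) * U := by
    have h2 : m * L * (gs gp 0).re ≤ (1 + η) * U := by
      rw [← hunit]
      calc m * L * (gs gp 0).re ≤ m * L * ((1 + η) * (h / Real.pi)) :=
            mul_le_mul_of_nonneg_left hTw.hi (by positivity)
        _ = _ := by ring
    linarith [P2.2]
  -- the error terms
  have hew' := hew T gTe S hSe r τ H (hwd δe hδe') U1 U2 hU1 hU1' hU2 hU2' X1 h hX1
    (by rw [← hL]; exact hLX) hh0.le hh1b
  rw [← hL, ← hmd] at hew'
  obtain ⟨hEA, hEO⟩ := hew'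
  have hX0 := hN.X0
  have hEA' : ∫ t in (T + L)..(2 * T - L), rh τ H S r t * EA F U1 U2 θ L (X1 / L) h t ≤
      Ce * (h * L + X1) * m := by
    refine le_trans ?_ hEA
    apply intervalIntegral.integral_mono_interval (by linarith) hab (by linarith)
    · exact Eventually.of_forall fun t => mul_nonneg (hρ0 t) (EA_nonneg F U1 U2 hX0 θ L h t)
    · exact EA_int F U1 U2 hρc hX0 θ L h _ _
  have hEO' : ∫ t in (T + L)..(2 * T - L), rh τ H S r t * EO F U1 U2 θ L (X1 / L) h t ≤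
      Ce * X1 * m := by
    refine le_trans ?_ hEO
    apply intervalIntegral.integral_mono_interval (by linarith) hab (by linarith)
    · exact Eventually.of_forall fun t => mul_nonneg (hρ0 t) (EO_nonneg F U1 U2 hX0 θ L h t)
    · exact EO_int F U1 U2 hρc hX0 θ L h _ _
  have hU11 : (1 : ℝ) ≤ U1 := by linarith
  have hΛ0 : 0 ≤ (1 - 4 * η) * L := mul_nonneg (by linarith) hLpos.le
  have hΛL : (1 - 4 * η) * L ≤ L := by nlinarith
  have hhL4 : 4 * (X1 / L) ≤ h := by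
    rw [← mul_div_assoc, div_le_iff₀ hLpos]
    refine le_trans ?_ hhL
    rw [hH0]; linarith
  have hI : NumI η ε' A C θ n L (d0 / L) e1 := by
    refine ⟨hηθ, hn8, hA1, hfa, by positivity, ?_, he10.le, he11⟩
    rw [div_mul_cancel₀ _ hLpos.ne']
    exact hd1
  -- the zeros outside a smaller window
  have hew2 := hew T gTe S hSe r τ H (hwd δe hδe') U1 U2 hU1 hU1' hU2 hU2' X1 (h - 4 * (X1 / L)) hX1
    (by rw [← hL]; exact hLX) (by linarith) (by linarith)
  rw [← hL, ← hmd] at hew2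
  have hEO2 : ∫ t in (T + L)..(2 * T - L), rh τ H S r t *
      EO F U1 U2 θ L (X1 / L) (h - 4 * (X1 / L)) t ≤ Ce * X1 * m := by
    refine le_trans ?_ hew2.2
    apply intervalIntegral.integral_mono_interval (by linarith) hab (by linarith)
    · exact Eventually.of_forall fun t => mul_nonneg (hρ0 t) (EO_nonneg F U1 U2 hX0 θ L _ t)
    · exact EO_int F U1 U2 hρc hX0 θ L _ _ _
  have hεU : 0 ≤ ε * U := by positivity
  refine ⟨?_, ?_, ?_⟩
  · exact xbI hTw hN hI hK hηε hρc hρ0 hab hm0 hEA' hEO2 hCe he12 (by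
      have h1 : 400000 * Real.pi * C ^ 2 * Real.exp A * Ce * X1 / ε ≤ h * L := by
        refine le_trans ?_ hhL
        rw [hH0]; linarith
      rw [div_le_iff₀ hε] at h1
      rw [mul_div_assoc', le_div_iff₀ hπ]
      linarith) A1 A3 (cnt_int hρc (Zf F U1 U2) (cI F d0) h (T + L) (2 * T - L))
      (fun t ht => ptI hF hU11 hTw hN hin hd0 hd1 hI hL hΛ0 hΛL hker hU1 hU1' hU2 ht.1 ht.2)
  · have := upb6 hF hU11 hTw hN hK hηε hρc hρ0 hab hm0 hEA' A2
    linarith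
  · exact lob6 hF hU11 hTw hN hK hηε hρc hρ0 hab hm0 hEA' hEO' A1

end Run7.h311.WI
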