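import Pool.Agent.N802.WD.Fin2
import Pool.Agent.Run7.h311.WI.Core

/-! # Isolated simple zeros in every weight -/

open Complex Filter Topology Set MeasureTheory
open scoped BigOperators ComplexConjugate

namespace Run7.h311.WI

open H370 hiding pt
open TC Pool.Agent.N802.U Pool.Agent.N802 Pool.Agent.N802.WD

/-- isolated simple zeros carry at least `67.25 % - ε` of every weight -/
theorem isoD {ε0 : ℝ} (h0 : 0 < ε0) (h1 : ε0 ≤ 1 / 10) : ∃ d0 : ℝ, 0 < d0 ∧ d0 ≤ 1 / 10 ∧
    S_directD riemannZeta (0.6725 - ε0) (cI riemannZeta d0) := by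
  obtain ⟨d0, hd0, hd1, hc⟩ := coreI win2 sq pl gsq (ms2 ch gsq) (fm2 ch) good_zeta
    (ef good_zeta) (ew good_zeta wd_zeta) h0
  exact ⟨d0, hd0, hd1, directD good_zeta (cI_nonneg _ _) (cI_le good_zeta d0)
    (sharpD good_zeta (by norm_num; linarith) (by norm_num; linarith) (cI_nonneg _ _)
      (cI_le good_zeta d0) hc)⟩

end Run7.h311.WI
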